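import Pool.Agent.ZAR.Stmts

/-!
# Row WEI: Weierstrass division after a linear change of coordinates
-/

namespace Pool.Agent.ZAR.H82

open MvPowerSeries

/-- A power series without constant term lies in the ideal generated by the variables. -/
theorem mem_span_X {L : Type} [Field L] {n : ℕ} (f : MvPowerSeries (Fin n) L)
    (hf : constantCoeff f = 0) :
    f ∈ (Ideal.span (Set.range X) : Ideal (MvPowerSeries (Fin n) L)) := by
  classical
  let g : Fin n → MvPowerSeries (Fin n) L := fun s m =>
    if m s ≠ 0 ∧ ∀ t < s, m t = 0 then coeff m f else 0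
  have hg : ∀ s m, coeff m (g s) = if m s ≠ 0 ∧ ∀ t < s, m t = 0 then coeff m f else 0 :=
    fun s m => rfl
  have hfg : f = ∑ s, g s := by
    ext m
    rw [map_sum]
    by_cases hm : m = 0
    · subst hm
      rw [coeff_zero_eq_constantCoeff_apply, hf]
      refine (Finset.sum_eq_zero fun s _ => ?_).symm
      rw [hg, if_neg]
      rintro ⟨h, -⟩
      exact h rfl
    · have hne : ∃ s, m s ≠ 0 := by
        by_contra hcon
        push Not at hcon
        exact hm (Finsupp.ext hcon)
      have hex : ∃ s, m s ≠ 0 ∧ ∀ t < s, m t = 0 := by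
        have hne' : (Finset.univ.filter fun s => m s ≠ 0).Nonempty := by
          obtain ⟨s, hs⟩ := hne
          exact ⟨s, by simp [hs]⟩
        obtain ⟨s, hs, hmin⟩ := Finset.exists_min_image _ (fun s : Fin n => s) hne'
        refine ⟨s, (Finset.mem_filter.1 hs).2, fun t ht => ?_⟩
        by_contra hcon
        exact absurd (hmin t (by simp [hcon])) (not_le.2 ht)
      obtain ⟨s, hs, hs'⟩ := hex
      rw [Finset.sum_eq_single s]
      · rw [hg, if_pos ⟨hs, hs'⟩]
      · intro t _ hts
        rw [hg, if_neg]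
        rintro ⟨ht, ht'⟩
        rcases lt_trichotomy t s with h | h | h
        · exact ht (hs' t h)
        · exact hts h
        · exact hs (ht' s h)
      · intro h
        exact absurd (Finset.mem_univ s) h
  rw [hfg]
  refine Ideal.sum_mem _ fun s _ => ?_
  have hdvd : (X s : MvPowerSeries (Fin n) L) ∣ g s := by
    rw [X_dvd_iff]
    intro m hm
    rw [hg, if_neg]
    rintro ⟨h, -⟩
    exact h hm
  obtain ⟨q, hq⟩ := hdvd
  rw [hq]
  exact Ideal.mul_mem_right _ _ (Ideal.subset_span ⟨s, rfl⟩)

/-- Elements of the ideal generated by the variables have no constant term. -/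
theorem constantCoeff_of_mem {L : Type} [Field L] {n : ℕ} (f : MvPowerSeries (Fin n) L)
    (hf : f ∈ (Ideal.span (Set.range X) : Ideal (MvPowerSeries (Fin n) L))) :
    constantCoeff f = 0 := by
  have hle : (Ideal.span (Set.range X) : Ideal (MvPowerSeries (Fin n) L)) ≤
      RingHom.ker (constantCoeff (σ := Fin n) (R := L)) := by
    rw [Ideal.span_le]
    rintro x ⟨s, rfl⟩
    simp
  exact hle hf

/-- Weierstrass division makes everything integral. -/
theorem integral_of_division {A : Type} [CommRing A] (I : Ideal A) [IsAdicComplete I A]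
    (G : PowerSeries A) (hG : G.IsWeierstrassDivisorAt I) (R : PowerSeries A) :
    ∃ p : Polynomial A, p.Monic ∧ ∃ h : PowerSeries A, p.eval₂ PowerSeries.C R = h * G := by
  classical
  set N := (G.map (Ideal.Quotient.mk I)).order.toNat with hN
  let F : Polynomial.degreeLT A N →ₗ[A] (PowerSeries A ⧸ Ideal.span {G}) :=
    ((Ideal.Quotient.mkₐ A (Ideal.span {G})).toLinearMap.comp
      (Polynomial.coeToPowerSeries.algHom A).toLinearMap).comp (Polynomial.degreeLT A N).subtype
  have hF : Function.Surjective F := by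
    intro y
    obtain ⟨f, rfl⟩ := Ideal.Quotient.mk_surjective y
    have hd := hG.isWeierstrassDivisionAt_div_mod f
    refine ⟨⟨hG.mod f, ?_⟩, ?_⟩
    · rw [Polynomial.mem_degreeLT]
      exact hd.degree_lt
    · change Ideal.Quotient.mk (Ideal.span {G}) (Polynomial.coeToPowerSeries.algHom A (hG.mod f)) = _
      rw [Ideal.Quotient.eq, Ideal.mem_span_singleton']
      refine ⟨- hG.div f, ?_⟩
      have h2 := hd.eq_mul_add
      have h3 : Polynomial.coeToPowerSeries.algHom A (hG.mod f) =
          ((hG.mod f : Polynomial A) : PowerSeries A) := by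
        rw [Polynomial.coeToPowerSeries.algHom_apply]
        simp
      rw [h3]
      linear_combination h2
  have : Module.Finite A (Polynomial.degreeLT A N) :=
    Module.Finite.equiv (Polynomial.degreeLTEquiv A N).symm
  have : Module.Finite A (PowerSeries A ⧸ Ideal.span {G}) := Module.Finite.of_surjective F hF
  obtain ⟨p, hp, hp2⟩ := IsIntegral.of_finite A (Ideal.Quotient.mk (Ideal.span {G}) R)
  refine ⟨p, hp, ?_⟩
  have h4 : Ideal.Quotient.mk (Ideal.span {G}) (p.eval₂ PowerSeries.C R) = 0 := by
    rw [Polynomial.hom_eval₂]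
    exact hp2
  rw [Ideal.Quotient.eq_zero_iff_mem, Ideal.mem_span_singleton'] at h4
  obtain ⟨h, hh⟩ := h4
  exact ⟨h, hh.symm⟩

/-- The linear forms with the coefficients of a matrix. -/
noncomputable def lin {L : Type} [Field L] {m : ℕ} (M : Matrix (Fin m) (Fin m) L) (a : Fin m) :
    MvPowerSeries (Fin m) L :=
  ∑ j, C (M a j) * X j

theorem hasSubst_lin {L : Type} [Field L] {m : ℕ} (M : Matrix (Fin m) (Fin m) L) :
    HasSubst (lin M) := by
  refine hasSubst_of_constantCoeff_zero fun a => ?_
  simp [lin]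

theorem lin_one {L : Type} [Field L] {m : ℕ} :
    lin (1 : Matrix (Fin m) (Fin m) L) = X := by
  funext a
  rw [lin, Finset.sum_eq_single a]
  · simp
  · intro b _ hb
    rw [Matrix.one_apply_ne (Ne.symm hb)]
    simp
  · intro h
    exact absurd (Finset.mem_univ a) h

theorem subst_lin {L : Type} [Field L] {m k : ℕ} (M : Matrix (Fin m) (Fin m) L) (a : Fin m)
    (b : Fin m → MvPowerSeries (Fin k) L) (hb : HasSubst b) :
    subst b (lin M a) = ∑ j, C (M a j) * b j := by
  have h1 : subst b (lin M a) = substAlgHom hb (lin M a) := by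
    rw [← coe_substAlgHom hb]
  rw [h1, lin, map_sum]
  refine Finset.sum_congr rfl fun j _ => ?_
  rw [map_mul, substAlgHom_X]
  congr 1
  rw [substAlgHom_apply, subst_C]

theorem subst_lin_lin {L : Type} [Field L] {m : ℕ} (M N : Matrix (Fin m) (Fin m) L) (a : Fin m) :
    subst (lin M) (lin N a) = lin (N * M) a := by
  rw [subst_lin N a _ (hasSubst_lin M)]
  simp only [lin, Finset.mul_sum, Matrix.mul_apply, map_sum, Finset.sum_mul, map_mul]
  rw [Finset.sum_comm]
  refine Finset.sum_congr rfl fun j _ => Finset.sum_congr rfl fun k _ => ?_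
  ring

theorem subst_inv {L : Type} [Field L] {m : ℕ} (M N : Matrix (Fin m) (Fin m) L)
    (hMN : N * M = 1) (f : MvPowerSeries (Fin m) L) :
    subst (lin M) (subst (lin N) f) = f := by
  rw [subst_comp_subst_apply (hasSubst_lin N) (hasSubst_lin M)]
  have h : (fun a => subst (lin M) (lin N a)) = X := by
    funext a
    rw [subst_lin_lin, hMN, lin_one]
  rw [h, subst_self]
  rfl

/-- The coordinate change: first row `e_0`, the other rows are those of `u`. -/
noncomputable def BM {L : Type} [Field L] {n : ℕ} (u : Fin n → Fin (n + 1) → L) :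
    Matrix (Fin (n + 1)) (Fin (n + 1)) L :=
  Matrix.of (Fin.cons (Pi.single 0 1) u : Fin (n + 1) → Fin (n + 1) → L)

theorem BM_zero {L : Type} [Field L] {n : ℕ} (u : Fin n → Fin (n + 1) → L) (j : Fin (n + 1)) :
    BM u 0 j = (Pi.single 0 1 : Fin (n + 1) → L) j := rfl

theorem BM_succ {L : Type} [Field L] {n : ℕ} (u : Fin n → Fin (n + 1) → L) (i : Fin n)
    (j : Fin (n + 1)) : BM u i.succ j = u i j := by
  simp [BM]

theorem det_BM {L : Type} [Field L] {n : ℕ} (u : Fin n → Fin (n + 1) → L) :
    (BM u).det = kv u 0 := by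
  rw [Matrix.det_succ_row_zero, Finset.sum_eq_single 0]
  · have hsub : (BM u).submatrix Fin.succ (Fin.succAbove 0) =
        Matrix.of fun i k : Fin n => u i ((0 : Fin (n + 1)).succAbove k) := by
      ext i k
      rw [Matrix.submatrix_apply, BM_succ]
      rfl
    rw [hsub, BM_zero, kv]
    simp
  · intro j _ hj
    rw [BM_zero, Pi.single_eq_of_ne hj]
    simp
  · intro h
    exact absurd (Finset.mem_univ _) h

theorem dot_kv {L : Type} [Field L] {n : ℕ} (u : Fin n → Fin (n + 1) → L) (i : Fin n) :
    ∑ j, u i j * kv u j = 0 := by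
  let N : Matrix (Fin (n + 1)) (Fin (n + 1)) L :=
    Matrix.of (Fin.cons (u i) u : Fin (n + 1) → Fin (n + 1) → L)
  have h0 : N.det = 0 := by
    refine Matrix.det_zero_of_row_eq (i := 0) (j := i.succ) (Fin.succ_ne_zero i).symm ?_
    funext j
    simp [N]
  rw [Matrix.det_succ_row_zero] at h0
  rw [← h0]
  refine Finset.sum_congr rfl fun j _ => ?_
  have hsub : N.submatrix Fin.succ j.succAbove =
      Matrix.of fun i k : Fin n => u i (j.succAbove k) := by
    ext a k
    simp [N]
  have hrow : N 0 j = u i j := rfl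
  rw [hsub, hrow, kv]
  ring

/-- Restriction to the first axis. -/
theorem subst_axis_eq_zero {L : Type} [Field L] {n : ℕ} (c : L)
    (f : MvPowerSeries (Fin (n + 1)) L)
    (hf : ∀ k : ℕ, coeff (Finsupp.cons k 0) f = 0) (b : Fin (n + 1) → MvPowerSeries (Fin 1) L)
    (hb0 : b 0 = C c * X 0) (hb : ∀ i : Fin n, b i.succ = 0) : subst b f = 0 := by
  have hbs : HasSubst b := by
    refine hasSubst_of_constantCoeff_zero fun a => ?_
    refine Fin.cases ?_ (fun i => ?_) a
    · rw [hb0]
      simp
    · rw [hb i]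
      simp
  ext d
  rw [coeff_subst hbs]
  rw [map_zero]
  refine finsum_eq_zero_of_forall_eq_zero fun m => ?_
  by_cases hm : ∀ i : Fin n, m i.succ = 0
  · have hmc : m = Finsupp.cons (m 0) 0 := by
      ext a
      refine Fin.cases ?_ (fun i => ?_) a
      · simp
      · rw [hm i]
        simp
    rw [hmc, hf]
    simp
  · push Not at hm
    obtain ⟨i, hi⟩ := hm
    have hprod : (m.prod fun s e => b s ^ e) = 0 := by
      rw [Finsupp.prod]
      refine Finset.prod_eq_zero (i := i.succ) (by simpa using hi) ?_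
      rw [hb i, zero_pow hi]
    rw [hprod]
    simp

/-- `Φ⁻¹ (C a)` is a rename. -/
theorem finSucc_rename {L : Type} [Field L] {n : ℕ} (a : MvPowerSeries (Fin n) L) :
    MvPowerSeries.finSuccEquiv L n (subst (fun i : Fin n => (X i.succ : MvPowerSeries _ L)) a) =
      PowerSeries.C a := by
  have hs : HasSubst (fun i : Fin n => (X i.succ : MvPowerSeries (Fin (n + 1)) L)) := by
    refine hasSubst_of_constantCoeff_zero fun i => ?_
    simp
  ext k x
  rw [coeff_coeff_finSuccEquiv, coeff_subst hs]
  have hmon : ∀ m : Fin n →₀ ℕ, (m.prod fun s e => (X s.succ : MvPowerSeries (Fin (n + 1)) L) ^ e) =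
      monomial (Finsupp.cons 0 m) 1 := by
    intro m
    have h1 : (monomial (Finsupp.cons 0 m) (1 : L) : MvPowerSeries (Fin (n + 1)) L) =
        (Finsupp.cons 0 m).prod fun s e => (X s : MvPowerSeries (Fin (n + 1)) L) ^ e := by
      rw [monomial_one_eq]
    rw [h1, Finsupp.prod_fintype _ _ (fun _ => pow_zero _),
      Finsupp.prod_fintype _ _ (fun _ => pow_zero _), Fin.prod_univ_succ]
    simp
  rw [finsum_eq_single _ x]
  · rw [hmon, coeff_monomial, PowerSeries.coeff_C]
    by_cases hk : k = 0
    · subst hk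
      simp
    · rw [if_neg hk, if_neg, map_zero, smul_zero]
      intro h
      apply hk
      have := congrArg (fun w => w 0) h
      simpa using this
  · intro m hm
    rw [hmon, coeff_monomial, if_neg, smul_zero]
    intro h
    apply hm
    ext i
    have := congrArg (fun w => w i.succ) h
    simpa using this.symm

theorem xu_eq {L : Type} [Field L] {n : ℕ} (u : Fin n → Fin (n + 1) → L) (i : Fin n) :
    xu (K := L) u X i = lin (BM u) i.succ := by
  rw [xu, lin]
  refine Finset.sum_congr rfl fun j _ => ?_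
  rw [BM_succ]
  simp [bc]

theorem evL_lin {L : Type} [Field L] {n : ℕ} (u : Fin n → Fin (n + 1) → L)
    (g' : MvPowerSeries (Fin (n + 1)) L) (hg : ∀ k : ℕ, coeff (Finsupp.cons k 0) g' = 0) :
    evL (kv u) (subst (lin (BM u)) g') = 0 := by
  have he : HasSubst (fun i => (C (kv u i) * X 0 : MvPowerSeries (Fin 1) L)) := by
    refine hasSubst_of_constantCoeff_zero fun i => ?_
    simp
  rw [evL, subst_comp_subst_apply (hasSubst_lin _) he]
  have hrow : ∀ a, subst (fun i => (C (kv u i) * X 0 : MvPowerSeries (Fin 1) L))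
      (lin (BM u) a) = C (∑ j, BM u a j * kv u j) * X 0 := by
    intro a
    rw [subst_lin _ _ _ he, map_sum, Finset.sum_mul]
    refine Finset.sum_congr rfl fun j _ => ?_
    rw [map_mul]
    ring
  refine subst_axis_eq_zero (kv u 0) g' hg _ ?_ ?_
  · rw [hrow, Finset.sum_eq_single 0]
    · rw [BM_zero]
      simp
    · intro j _ hj
      rw [BM_zero, Pi.single_eq_of_ne hj, zero_mul]
    · intro h
      exact absurd (Finset.mem_univ _) h
  · intro i
    rw [hrow]
    simp only [BM_succ]
    rw [dot_kv]
    simp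

theorem wei : WEIStmt := by
  intro L _ n u g hkv hg r
  classical
  have hdet : IsUnit (BM u).det := by
    rw [det_BM]
    exact (hkv 0).isUnit
  have hBi : (BM u)⁻¹ * BM u = 1 := Matrix.nonsing_inv_mul _ hdet
  let Φ := MvPowerSeries.finSuccEquiv L n
  let g' := subst (lin (BM u)⁻¹) g
  let r' := subst (lin (BM u)⁻¹) r
  have hgg : subst (lin (BM u)) g' = g := subst_inv _ _ hBi g
  have hrr : subst (lin (BM u)) r' = r := subst_inv _ _ hBi r
  let I : Ideal (MvPowerSeries (Fin n) L) := Ideal.span (Set.range X)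
  let G := Φ g'
  have hk : ∃ k, PowerSeries.coeff k G ∉ I := by
    by_contra hcon
    push Not at hcon
    refine hg ?_
    rw [← hgg]
    refine evL_lin u g' fun k => ?_
    have h1 := constantCoeff_of_mem _ (hcon k)
    rw [← coeff_zero_eq_constantCoeff_apply] at h1
    rw [← h1]
    exact (coeff_coeff_finSuccEquiv g').symm
  have hne : G.map (Ideal.Quotient.mk I) ≠ 0 := by
    obtain ⟨k, hk⟩ := hk
    intro h0
    apply hk
    have h1 : PowerSeries.coeff k (G.map (Ideal.Quotient.mk I)) = 0 := by
      rw [h0, map_zero]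
    rw [PowerSeries.coeff_map] at h1
    exact Ideal.Quotient.eq_zero_iff_mem.1 h1
  have hdiv : G.IsWeierstrassDivisorAt I := by
    have h1 := PowerSeries.coeff_order hne
    rw [PowerSeries.coeff_map] at h1
    rw [PowerSeries.IsWeierstrassDivisorAt, isUnit_iff_constantCoeff, isUnit_iff_ne_zero]
    intro h2
    exact h1 (Ideal.Quotient.eq_zero_iff_mem.2 (mem_span_X _ h2))
  obtain ⟨p, hp, h, hh⟩ := integral_of_division I G hdiv (Φ r')
  refine ⟨p, hp, subst (lin (BM u)) (Φ.symm h), ?_⟩
  let ψ : PowerSeries (MvPowerSeries (Fin n) L) →+* MvPowerSeries (Fin (n + 1)) L :=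
    ((substAlgHom (R := L) (hasSubst_lin (BM u))) : MvPowerSeries (Fin (n + 1)) L →+*
      MvPowerSeries (Fin (n + 1)) L).comp (Φ.symm : PowerSeries (MvPowerSeries (Fin n) L) →+* _)
  have hψ : ∀ q, ψ q = subst (lin (BM u)) (Φ.symm q) := by
    intro q
    change substAlgHom (hasSubst_lin (BM u)) (Φ.symm q) = _
    rw [substAlgHom_apply]
  have hψC : ∀ a, ψ (PowerSeries.C a) = subst (xu (K := L) u X) a := by
    intro a
    rw [hψ, ← finSucc_rename a]
    change subst (lin (BM u)) (Φ.symm (Φ _)) = _
    rw [AlgEquiv.symm_apply_apply]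
    have hs : HasSubst (fun i : Fin n => (X i.succ : MvPowerSeries (Fin (n + 1)) L)) := by
      refine hasSubst_of_constantCoeff_zero fun i => ?_
      simp
    rw [subst_comp_subst_apply hs (hasSubst_lin _)]
    congr 1
    funext i
    rw [subst_X (hasSubst_lin _), xu_eq]
  have hψg : ψ G = g := by
    rw [hψ]
    change subst (lin (BM u)) (Φ.symm (Φ g')) = _
    rw [AlgEquiv.symm_apply_apply, hgg]
  have hψr : ψ (Φ r') = r := by
    rw [hψ, AlgEquiv.symm_apply_apply, hrr]
  have h5 := congrArg ψ hh
  rw [Polynomial.hom_eval₂, map_mul, hψr, hψg, Polynomial.eval₂_eq_sum_range, hψ h] at h5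
  rw [← h5]
  refine Finset.sum_congr rfl fun i _ => ?_
  rw [RingHom.comp_apply, hψC]

end Pool.Agent.ZAR.H82
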